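import Pool.Agent.E8helper2.ZB.Stm9

/-!
# HARD-ZB, piece ZB5-FIX
-/

set_option autoImplicit false

namespace Pool.Agent.E8helper30.ZB

open Module Pool.Agent.E8helper2.ZB

section linear

variable {p ℓ : ℕ} [Fact p.Prime] [Fact ℓ.Prime]

/-- the rotation of the coordinates -/
def rot (p ℓ : ℕ) : (Fin ℓ → ZMod p) ≃ₗ[ZMod p] (Fin ℓ → ZMod p) :=
  LinearEquiv.funCongrLeft (ZMod p) (ZMod p) (finRotate ℓ).symm

lemma rot_apply (v : Fin ℓ → ZMod p) (i : Fin ℓ) : rot p ℓ v i = v ((finRotate ℓ).symm i) := rfl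

lemma rot_single (i : Fin ℓ) (a : ZMod p) :
    rot p ℓ (Pi.single i a) = Pi.single (finRotate ℓ i) a := by
  funext j
  rw [rot_apply, Pi.single_apply, Pi.single_apply]
  congr 1
  rw [eq_iff_iff, Equiv.symm_apply_eq]

lemma rot_pow : (rot p ℓ) ^ ℓ = 1 := by
  have h1 : ∀ (k : ℕ) (v : Fin ℓ → ZMod p) (i : Fin ℓ),
      ((rot p ℓ) ^ k) v i = v (((finRotate ℓ).symm ^ k) i) := by
    intro k
    induction k with
    | zero => intro v i; rfl
    | succ k ih =>
      intro v i
      rw [pow_succ', pow_succ]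
      show rot p ℓ (((rot p ℓ) ^ k) v) i = _
      rw [rot_apply, ih]
      rfl
  have h2 : (finRotate ℓ) ^ ℓ = 1 := by
    have hℓ : 2 ≤ ℓ := (Fact.out : ℓ.Prime).two_le
    obtain ⟨n, rfl⟩ : ∃ n, ℓ = n + 2 := ⟨ℓ - 2, by omega⟩
    have h3 := (isCycle_finRotate (n := n)).orderOf
    rw [support_finRotate, Finset.card_univ, Fintype.card_fin] at h3
    have h4 := pow_orderOf_eq_one (finRotate (n + 2))
    rwa [h3] at h4
  have h3 : (finRotate ℓ).symm ^ ℓ = 1 := by
    have : (finRotate ℓ).symm = (finRotate ℓ)⁻¹ := rfl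
    rw [this, inv_pow, h2, inv_one]
  ext v i
  rw [h1, h3]
  rfl

/-- a subspace of small codimension which is stable under the rotation and contains the constants is
everything -/
theorem eq_top (hpℓ : p ≠ ℓ) (U : Submodule (ZMod p) (Fin ℓ → ZMod p))
    (hU : ∀ v, rot p ℓ v ∈ U ↔ v ∈ U) (hc : (fun _ => 1) ∈ U)
    (hcard : Nat.card ((Fin ℓ → ZMod p) ⧸ U) < p ^ orderOf (p : ZMod ℓ)) : U = ⊤ := by
  classical
  have hp := (Fact.out : p.Prime)
  have hℓ := (Fact.out : ℓ.Prime)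
  have hmap : U.map (rot p ℓ : (Fin ℓ → ZMod p) →ₗ[ZMod p] (Fin ℓ → ZMod p)) = U := by
    ext v
    rw [Submodule.mem_map]
    constructor
    · rintro ⟨w, hw, rfl⟩
      exact (hU w).2 hw
    · intro hv
      refine ⟨(rot p ℓ).symm v, ?_, by simp⟩
      rw [← hU]
      simpa using hv
  set r : ((Fin ℓ → ZMod p) ⧸ U) ≃ₗ[ZMod p] ((Fin ℓ → ZMod p) ⧸ U) :=
    Submodule.Quotient.equiv U U (rot p ℓ) hmap with hr
  have hr1 : ∀ v, r (Submodule.Quotient.mk v) = Submodule.Quotient.mk (rot p ℓ v) := fun v => rfl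
  have hrk : ∀ (k : ℕ) v, (r ^ k) (Submodule.Quotient.mk v) = Submodule.Quotient.mk ((rot p ℓ ^ k) v) := by
    intro k
    induction k with
    | zero => intro v; rfl
    | succ k ih =>
      intro v
      rw [pow_succ, pow_succ]
      show (r ^ k) (r (Submodule.Quotient.mk v)) = _
      rw [hr1, ih]
      rfl
  have hrℓ : r ^ ℓ = 1 := by
    apply LinearEquiv.ext
    intro q
    obtain ⟨v, rfl⟩ := Submodule.Quotient.mk_surjective U q
    rw [hrk, rot_pow]
    rfl
  have hPG : IsPGroup ℓ (Subgroup.zpowers r) := by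
    rintro ⟨g, hg⟩
    obtain ⟨k, rfl⟩ := Subgroup.mem_zpowers_iff.1 hg
    refine ⟨1, ?_⟩
    apply Subtype.ext
    show (r ^ k) ^ ℓ ^ 1 = 1
    rw [pow_one, ← zpow_natCast, ← zpow_mul, mul_comm, zpow_mul, zpow_natCast, hrℓ, one_zpow]
  have hmod := hPG.card_modEq_card_fixedPoints ((Fin ℓ → ZMod p) ⧸ U)
  set F : Submodule (ZMod p) ((Fin ℓ → ZMod p) ⧸ U) := LinearMap.ker ((r : _ →ₗ[ZMod p] _) - LinearMap.id) with hF
  have hFmem : ∀ q, q ∈ F ↔ r q = q := by
    intro q
    rw [hF, LinearMap.mem_ker, LinearMap.sub_apply, LinearMap.id_apply, sub_eq_zero]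
    rfl
  have hfix : MulAction.fixedPoints (Subgroup.zpowers r) ((Fin ℓ → ZMod p) ⧸ U) = (F : Set _) := by
    ext q
    rw [MulAction.mem_fixedPoints, SetLike.mem_coe, hFmem]
    constructor
    · intro h
      exact h ⟨r, Subgroup.mem_zpowers r⟩
    · rintro h ⟨g, hg⟩
      have h1 : r ∈ MulAction.stabilizer (((Fin ℓ → ZMod p) ⧸ U) ≃ₗ[ZMod p] ((Fin ℓ → ZMod p) ⧸ U)) q := h
      have h2 : Subgroup.zpowers r ≤ MulAction.stabilizer _ q := by
        rw [Subgroup.zpowers_le]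
        exact h1
      exact h2 hg
  have e1 : Nat.card ((Fin ℓ → ZMod p) ⧸ U) = p ^ finrank (ZMod p) ((Fin ℓ → ZMod p) ⧸ U) := by
    rw [Module.natCard_eq_pow_finrank (K := ZMod p), Nat.card_zmod]
  have e2 : Nat.card (MulAction.fixedPoints (Subgroup.zpowers r) ((Fin ℓ → ZMod p) ⧸ U)) =
      p ^ finrank (ZMod p) F := by
    rw [hfix]
    have : Nat.card F = p ^ finrank (ZMod p) F := by
      rw [Module.natCard_eq_pow_finrank (K := ZMod p), Nat.card_zmod]
    exact this
  rw [e1, e2] at hmod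
  have hle : finrank (ZMod p) F ≤ finrank (ZMod p) ((Fin ℓ → ZMod p) ⧸ U) := Submodule.finrank_le F
  have hlt : finrank (ZMod p) ((Fin ℓ → ZMod p) ⧸ U) < orderOf (p : ZMod ℓ) := by
    rw [e1] at hcard
    exact (Nat.pow_lt_pow_iff_right hp.one_lt).1 hcard
  have hunit : (p : ZMod ℓ) ≠ 0 := by
    rw [Ne, ZMod.natCast_eq_zero_iff]
    intro h
    exact hpℓ ((Nat.prime_dvd_prime_iff_eq hℓ hp).1 h).symm
  have heq : finrank (ZMod p) F = finrank (ZMod p) ((Fin ℓ → ZMod p) ⧸ U) := by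
    obtain ⟨t, ht⟩ := Nat.exists_eq_add_of_le hle
    have h1 : ((p ^ finrank (ZMod p) ((Fin ℓ → ZMod p) ⧸ U) : ℕ) : ZMod ℓ) =
        ((p ^ finrank (ZMod p) F : ℕ) : ZMod ℓ) := (ZMod.natCast_eq_natCast_iff _ _ _).2 hmod
    rw [ht] at h1
    push_cast at h1
    rw [pow_add] at h1
    have h2 : (p : ZMod ℓ) ^ t = 1 := by
      have h3 : (p : ZMod ℓ) ^ finrank (ZMod p) F ≠ 0 := pow_ne_zero _ hunit
      exact mul_left_cancel₀ h3 (by rw [h1, mul_one])
    have h3 := orderOf_dvd_of_pow_eq_one h2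
    have h4 : t = 0 := by
      by_contra h0
      have := Nat.le_of_dvd (Nat.pos_of_ne_zero h0) h3
      omega
    omega
  have hFtop : F = ⊤ := Submodule.eq_top_of_finrank_eq heq
  have hg : ∀ i : Fin ℓ, (Submodule.Quotient.mk (Pi.single (finRotate ℓ i) 1) : (Fin ℓ → ZMod p) ⧸ U) =
      Submodule.Quotient.mk (Pi.single i 1) := by
    intro i
    have h1 : (Submodule.Quotient.mk (Pi.single i 1) : (Fin ℓ → ZMod p) ⧸ U) ∈ F := by
      rw [hFtop]; trivial
    rw [hFmem, hr1, rot_single] at h1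
    exact h1
  obtain ⟨n, rfl⟩ : ∃ n, ℓ = n + 1 := ⟨ℓ - 1, by have := hℓ.pos; omega⟩
  have hconst : ∀ i : Fin (n + 1), (Submodule.Quotient.mk (Pi.single i 1) : (Fin (n + 1) → ZMod p) ⧸ U) =
      Submodule.Quotient.mk (Pi.single 0 1) := by
    intro i
    induction i using Fin.induction with
    | zero => rfl
    | succ i ih =>
      rw [← ih, ← hg i.castSucc, finRotate_apply, Fin.coeSucc_eq_succ]
  have hsum : ∀ v : Fin (n + 1) → ZMod p, (Submodule.Quotient.mk v : (Fin (n + 1) → ZMod p) ⧸ U) =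
      (∑ i, v i) • Submodule.Quotient.mk (Pi.single 0 1) := by
    intro v
    have h1 : v = ∑ i, v i • (Pi.single i (1 : ZMod p) : Fin (n + 1) → ZMod p) := by
      conv_lhs => rw [← Finset.univ_sum_single v]
      refine Finset.sum_congr rfl fun i _ => ?_
      rw [← Pi.single_smul', smul_eq_mul, mul_one]
    have h2 : (Submodule.Quotient.mk v : (Fin (n + 1) → ZMod p) ⧸ U) = U.mkQ v := rfl
    rw [h2, h1, map_sum, Finset.sum_smul]
    refine Finset.sum_congr rfl fun i _ => ?_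
    rw [map_smul, Submodule.mkQ_apply, hconst i, ← h1]
  have h0 : (Submodule.Quotient.mk (Pi.single 0 1) : (Fin (n + 1) → ZMod p) ⧸ U) = 0 := by
    have h1 := hsum (fun _ => 1)
    rw [(Submodule.Quotient.mk_eq_zero U).2 hc, Finset.sum_const, Finset.card_univ, Fintype.card_fin,
      nsmul_eq_mul, mul_one] at h1
    have h2 : ((n + 1 : ℕ) : ZMod p) ≠ 0 := by
      rw [Ne, ZMod.natCast_eq_zero_iff]
      intro h
      exact hpℓ ((Nat.prime_dvd_prime_iff_eq hp hℓ).1 h)
    exact (smul_eq_zero.1 h1.symm).resolve_left h2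
  rw [eq_top_iff]
  intro v _
  rw [← Submodule.Quotient.mk_eq_zero U, hsum, h0, smul_zero]

end linear

/-- FIX -/
theorem fix : S_FIX := by
  intro p ℓ _ _ hpℓ G _ Γ Δ φ s hφ hs hsℓ hcomm hone hnd hlt
  classical
  have hℓ := (Fact.out : ℓ.Prime)
  have hd : Δ.relIndex Γ = Nat.card (Γ ⧸ Δ.subgroupOf Γ) := rfl
  have hfin : Finite (Γ ⧸ Δ.subgroupOf Γ) := by
    apply Nat.finite_of_card_ne_zero
    rw [← hd]
    intro h
    rw [h] at hnd
    exact hnd (dvd_zero _)
  set s' : Γ := ⟨s, hs⟩ with hs'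
  have hs'ℓ : s' ^ ℓ = 1 := Subtype.ext hsℓ
  have hPG : IsPGroup ℓ (Subgroup.zpowers s') := by
    rintro ⟨g, hg⟩
    obtain ⟨k, rfl⟩ := Subgroup.mem_zpowers_iff.1 hg
    refine ⟨1, ?_⟩
    apply Subtype.ext
    show (s' ^ k) ^ ℓ ^ 1 = 1
    rw [pow_one, ← zpow_natCast, ← zpow_mul, mul_comm, zpow_mul, zpow_natCast, hs'ℓ, one_zpow]
  have hmod := hPG.card_modEq_card_fixedPoints (Γ ⧸ Δ.subgroupOf Γ)
  have hne : (MulAction.fixedPoints (Subgroup.zpowers s') (Γ ⧸ Δ.subgroupOf Γ)).Nonempty := by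
    by_contra h
    rw [Set.not_nonempty_iff_eq_empty] at h
    have h0 : Nat.card (∅ : Set (Γ ⧸ Δ.subgroupOf Γ)) = 0 := by simp
    rw [h, h0, ← hd] at hmod
    exact hnd ((Nat.modEq_zero_iff_dvd).1 hmod)
  obtain ⟨x, hx⟩ := hne
  have hsx : s' • x = x := hx ⟨s', Subgroup.mem_zpowers s'⟩
  set φ' : GG p ℓ →* Γ := φ.codRestrict Γ hφ with hφ'
  -- conjugation
  have hconj : ∀ v : Fin ℓ → ZMod p, φ (Multiplicative.ofAdd v) * s =
      s * φ (Multiplicative.ofAdd (rot p ℓ v)) := by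
    let A : AddSubgroup (Fin ℓ → ZMod p) :=
      { carrier := {v | φ (Multiplicative.ofAdd v) * s = s * φ (Multiplicative.ofAdd (rot p ℓ v))}
        zero_mem' := by
          show φ (Multiplicative.ofAdd 0) * s = s * φ (Multiplicative.ofAdd (rot p ℓ 0))
          rw [LinearEquiv.map_zero, ofAdd_zero, map_one, one_mul, mul_one]
        add_mem' := by
          intro v w hv hw
          show φ (Multiplicative.ofAdd (v + w)) * s = s * φ (Multiplicative.ofAdd (rot p ℓ (v + w)))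
          rw [LinearEquiv.map_add, ofAdd_add, ofAdd_add, map_mul, map_mul, mul_assoc,
            show φ (Multiplicative.ofAdd w) * s = s * φ (Multiplicative.ofAdd (rot p ℓ w)) from hw,
            ← mul_assoc,
            show φ (Multiplicative.ofAdd v) * s = s * φ (Multiplicative.ofAdd (rot p ℓ v)) from hv,
            mul_assoc]
        neg_mem' := by
          intro v hv
          show φ (Multiplicative.ofAdd (-v)) * s = s * φ (Multiplicative.ofAdd (rot p ℓ (-v)))
          rw [show rot p ℓ (-v) = - rot p ℓ v from map_neg _ _, ofAdd_neg, ofAdd_neg, map_inv, map_inv, inv_mul_eq_iff_eq_mul, ← mul_assoc,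
            show φ (Multiplicative.ofAdd v) * s = s * φ (Multiplicative.ofAdd (rot p ℓ v)) from hv,
            mul_assoc, mul_inv_cancel, mul_one] }
    have hA : ∀ v, v ∈ AddSubgroup.toZModSubmodule p A ↔
        φ (Multiplicative.ofAdd v) * s = s * φ (Multiplicative.ofAdd (rot p ℓ v)) := fun v => Iff.rfl
    have htop : AddSubgroup.toZModSubmodule p A = ⊤ := by
      rw [eq_top_iff, ← (Pi.basisFun (ZMod p) (Fin ℓ)).span_eq, Submodule.span_le]
      rintro _ ⟨i, rfl⟩
      rw [Pi.basisFun_apply, SetLike.mem_coe, hA, rot_single]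
      exact hcomm i
    intro v
    rw [← hA, htop]
    trivial
  have hconj' : ∀ v : Fin ℓ → ZMod p, φ' (Multiplicative.ofAdd v) * s' =
      s' * φ' (Multiplicative.ofAdd (rot p ℓ v)) := fun v => Subtype.ext (hconj v)
  -- the stabilizer
  let B : AddSubgroup (Fin ℓ → ZMod p) :=
    { carrier := {v | φ' (Multiplicative.ofAdd v) • x = x}
      zero_mem' := by
        show φ' (Multiplicative.ofAdd 0) • x = x
        rw [ofAdd_zero, map_one, one_smul]
      add_mem' := by
        intro v w hv hw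
        show φ' (Multiplicative.ofAdd (v + w)) • x = x
        rw [ofAdd_add, map_mul, mul_smul,
          show φ' (Multiplicative.ofAdd w) • x = x from hw]
        exact hv
      neg_mem' := by
        intro v hv
        show φ' (Multiplicative.ofAdd (-v)) • x = x
        rw [ofAdd_neg, map_inv, inv_smul_eq_iff]
        exact (show φ' (Multiplicative.ofAdd v) • x = x from hv).symm }
  set U := AddSubgroup.toZModSubmodule p B with hUdef
  have hU : ∀ v, v ∈ U ↔ φ' (Multiplicative.ofAdd v) • x = x := fun v => Iff.rfl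
  have hUtop : U = ⊤ := by
    apply eq_top hpℓ U
    · intro v
      rw [hU, hU]
      have h1 : φ' (Multiplicative.ofAdd v) • x = s' • φ' (Multiplicative.ofAdd (rot p ℓ v)) • x := by
        rw [← mul_smul, ← hconj', mul_smul, hsx]
      rw [h1]
      constructor
      · intro h; rw [h, hsx]
      · intro h
        apply (MulAction.injective s')
        show s' • φ' (Multiplicative.ofAdd (rot p ℓ v)) • x = s' • x
        rw [h, hsx]
    · rw [hU]
      have : φ' (Multiplicative.ofAdd fun _ => 1) = 1 := Subtype.ext hone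
      rw [this, one_smul]
    · refine lt_of_le_of_lt ?_ hlt
      rw [hd]
      apply Nat.card_le_card_of_injective
        (fun q : (Fin ℓ → ZMod p) ⧸ U => φ' (Multiplicative.ofAdd (Quotient.out q)) • x)
      intro q q' h
      have h1 : φ' (Multiplicative.ofAdd (Quotient.out q)) • x =
        φ' (Multiplicative.ofAdd (Quotient.out q')) • x := h
      have h2 : Quotient.out q - Quotient.out q' ∈ U := by
        rw [hU, sub_eq_neg_add, ofAdd_add, ofAdd_neg, map_mul, map_inv, mul_smul, h1, inv_smul_smul]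
      have h3 := (Submodule.Quotient.eq U).2 h2
      have h4 : ∀ q : (Fin ℓ → ZMod p) ⧸ U, (Submodule.Quotient.mk (Quotient.out q) : (Fin ℓ → ZMod p) ⧸ U) = q :=
        fun q => Quotient.out_eq q
      rwa [h4, h4] at h3
  obtain ⟨γ, rfl⟩ := QuotientGroup.mk_surjective x
  have hfixΔ : ∀ g : Γ, g • (QuotientGroup.mk γ : Γ ⧸ Δ.subgroupOf Γ) = QuotientGroup.mk γ →
      (γ : G)⁻¹ * (g : G) * (γ : G) ∈ Δ := by
    intro g hg
    have h1 : (QuotientGroup.mk (g * γ) : Γ ⧸ Δ.subgroupOf Γ) = QuotientGroup.mk γ := hg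
    rw [eq_comm, QuotientGroup.eq, Subgroup.mem_subgroupOf] at h1
    simpa [mul_assoc] using h1
  refine ⟨γ, γ.2, fun g => ?_, hfixΔ s' hsx⟩
  have h1 : Multiplicative.toAdd g ∈ U := by rw [hUtop]; trivial
  exact hfixΔ (φ' g) ((hU _).1 h1)

end Pool.Agent.E8helper30.ZB
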